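import Pool.Agent.W_7d29a1_f16.Level
import Pool.Agent.W_7d29a1_f17.NuSum

/-!
# THEOREM F (MP_7d29a1_pr), section 9: the choice of the level of the tubes (pure), summary
-/

namespace Pool.Agent.W_7d29a1_f16

open Filter Topology Finset

variable {A i1 : ℕ} {T : ℕ → ℕ} {w : ℕ → ℝ}

lemma Tb.ff_le (H : Tb A i1 T w) {Cg : ℝ} (hC : 2 ≤ Cg) {i : ℕ} (hi : i1 ≤ i) :
    ff T w Cg (i + 1) ≤ 2 * Cg * A ^ 2 * (w (i + 1) * Real.log (2 / w (i + 1))) * A ^ i := by
  have h1 : i1 ≤ i + 1 := by omega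
  have h2 : (T (i + 1) : ℝ) ≤ 2 * A ^ (i + 2) := by exact_mod_cast H.Tle _ h1
  have h3 := H.wpos h1
  have h4 := H.log_pos h1
  have h5 : 0 ≤ Cg * Real.log (2 / w (i + 1)) * w (i + 1) := by
    have : 0 ≤ Cg := by linarith
    have : 0 ≤ Real.log (2 / w (i + 1)) := by linarith
    positivity
  calc ff T w Cg (i + 1) = Cg * Real.log (2 / w (i + 1)) * w (i + 1) * T (i + 1) := rfl
    _ ≤ Cg * Real.log (2 / w (i + 1)) * w (i + 1) * (2 * A ^ (i + 2)) := mul_le_mul_of_nonneg_left h2 h5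
    _ = _ := by ring

/-- the summary of the choice of the level -/
theorem Tb.choice (H : Tb A i1 T w) (Cg : ℝ) (hC : 2 ≤ Cg) :
    ∃ (nu : ℕ → ℝ) (l lv : ℕ → ℕ) (x0 : ℕ), (∀ x, 0 ≤ nu x) ∧ Tendsto nu atTop (𝓝 0) ∧
      (∀ x, nu x * 2 ^ l x ≤ 4 * A) ∧
      (∀ ε : ℝ, 0 < ε → ∃ Cε : ℝ, ∀ X : ℕ, 1 ≤ X →
        ∑ x ∈ Finset.range (X + 1), nu x ≤ ε * Real.log X + Cε) ∧
      ∀ x ≥ x0, i1 ≤ lv x ∧ ff T w Cg (lv x) ≤ 2 ^ x ∧ 8 * 2 ^ x ≤ T (lv x) ∧
        (2 : ℝ) ^ (x + 1) / T (lv x) ≤ nu (x + 1) ∧ T (lv x) ≤ 2 ^ (x + 1 + l (x + 1)) ∧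
        1 ≤ w (lv x) * T (lv x) := by
  classical
  have hA2 := H.A2
  have hA0 : (0 : ℝ) < A := by exact_mod_cast (show 0 < A by omega)
  have hA2' : (2 : ℝ) ≤ A := by exact_mod_cast hA2
  have hC0 : 0 < Cg := by linarith
  obtain ⟨x1, hx1⟩ := eventually_atTop.1 (H.lev_large Cg hC 8)
  set x0 : ℕ := max x1 (A ^ 18) with hx0
  set lv : ℕ → ℕ := fun x => lev i1 T w Cg x with hlv
  set nu : ℕ → ℝ := fun x => if x0 < x then (2 : ℝ) ^ x / (A : ℝ) ^ (lv (x - 1)) else 0 with hnu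
  set l : ℕ → ℕ := fun x => Nat.clog 2 (T (lv (x - 1))) - x with hl
  have base : ∀ x ≥ x0, i1 ≤ lv x ∧ ff T w Cg (lv x) ≤ 2 ^ x ∧ (8 : ℝ) * 2 ^ x ≤ (A : ℝ) ^ (lv x) := by
    intro x hx
    have := hx1 x (by rw [hx0] at hx; omega)
    exact_mod_cast this
  have base2 : ∀ x ≥ x0, 8 * 2 ^ x ≤ A ^ (lv x) := by
    intro x hx
    exact_mod_cast (base x hx).2.2
  have nu0 : ∀ x, 0 ≤ nu x := by
    intro x
    rw [hnu]
    simp only
    split_ifs
    · positivity
    · exact le_rfl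
  have nu1 : ∀ x ≥ x0, nu (x + 1) = (2 : ℝ) ^ (x + 1) / (A : ℝ) ^ (lv x) := by
    intro x hx
    rw [hnu]
    simp only
    rw [if_pos (by omega)]
    simp
  have nu2 : ∀ x < x0, nu (x + 1) = 0 := by
    intro x hx
    rw [hnu]
    simp only
    rw [if_neg (by omega)]
  have nu3 : nu 0 = 0 := by
    rw [hnu]
    simp only
    rw [if_neg (by omega)]
  refine ⟨nu, l, lv, x0, nu0, ?_, ?_, ?_, ?_⟩
  · -- `nu → 0`
    rw [← tendsto_add_atTop_iff_nat 1]
    rw [Metric.tendsto_atTop]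
    intro ε hε
    obtain ⟨K, hK⟩ := exists_nat_gt (2 / ε)
    have hKpos : (0 : ℝ) < K := lt_trans (by positivity) hK
    obtain ⟨x2, hx2⟩ := eventually_atTop.1 (H.lev_large Cg hC K)
    refine ⟨max x0 x2, fun x hx => ?_⟩
    have h1 := nu1 x (le_trans (le_max_left _ _) hx)
    have h2 := (hx2 x (le_trans (le_max_right _ _) hx)).2.2
    rw [Real.dist_eq, sub_zero, abs_of_nonneg (nu0 _), h1]
    have h3 : (0 : ℝ) < (A : ℝ) ^ (lv x) := by positivity
    rw [div_lt_iff₀ h3]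
    have h4 : (2 : ℝ) < ε * K := by
      rw [div_lt_iff₀ hε] at hK
      linarith
    have h5 : (K : ℝ) * 2 ^ x ≤ (A : ℝ) ^ (lv x) := h2
    have h6 : (0 : ℝ) < 2 ^ x := by positivity
    calc (2 : ℝ) ^ (x + 1) = 2 * 2 ^ x := by rw [pow_succ]; ring
      _ < (ε * K) * 2 ^ x := mul_lt_mul_of_pos_right h4 h6
      _ = ε * (K * 2 ^ x) := by ring
      _ ≤ ε * (A : ℝ) ^ (lv x) := mul_le_mul_of_nonneg_left h5 hε.le
  · -- `nu 2 ^ l`
    intro x
    rcases Nat.lt_or_ge x0 x with hx | hx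
    · obtain ⟨x', rfl⟩ : ∃ x', x = x' + 1 := ⟨x - 1, by omega⟩
      have hx' : x0 ≤ x' := by omega
      rw [nu1 x' hx']
      have h3 : (0 : ℝ) < (A : ℝ) ^ (lv x') := by positivity
      have hb := base x' hx'
      have hTle := H.Tle _ hb.1
      have hTge := H.Tge _ hb.1
      rw [div_mul_eq_mul_div, div_le_iff₀ h3]
      have hlx : l (x' + 1) = Nat.clog 2 (T (lv x')) - (x' + 1) := rfl
      rcases Nat.lt_or_ge (x' + 1) (Nat.clog 2 (T (lv x'))) with hc | hc
      · have h4 : (2 : ℝ) ^ (x' + 1) * 2 ^ l (x' + 1) = 2 ^ (Nat.clog 2 (T (lv x'))) := by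
          rw [← pow_add, hlx]
          congr 1
          omega
        rw [h4]
        have h5 : 1 < T (lv x') := by
          have : 8 * 2 ^ x' ≤ A ^ (lv x') := base2 x' hx'
          have : 1 ≤ 2 ^ x' := Nat.one_le_two_pow
          omega
        have h6 := Nat.pow_pred_clog_lt_self (b := 2) (by norm_num) h5
        have h7 : 0 < Nat.clog 2 (T (lv x')) := by omega
        have h8 : 2 ^ (Nat.clog 2 (T (lv x'))) ≤ 2 * T (lv x') := by
          calc 2 ^ (Nat.clog 2 (T (lv x'))) = 2 * 2 ^ (Nat.clog 2 (T (lv x'))).pred := by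
                conv_lhs => rw [← Nat.succ_pred_eq_of_pos h7]
                rw [pow_succ, mul_comm]
            _ ≤ 2 * T (lv x') := Nat.mul_le_mul_left 2 h6.le
        have h9 : 2 ^ (Nat.clog 2 (T (lv x'))) ≤ 4 * A * A ^ (lv x') := by
          calc 2 ^ (Nat.clog 2 (T (lv x'))) ≤ 2 * T (lv x') := h8
            _ ≤ 2 * (2 * A ^ (lv x' + 1)) := Nat.mul_le_mul_left 2 hTle
            _ = _ := by rw [pow_succ]; ring
        exact_mod_cast h9
      · have h4 : l (x' + 1) = 0 := by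
          rw [hlx]
          omega
        rw [h4, pow_zero, mul_one]
        have h5 := hb.2.2
        have h6 : (0 : ℝ) < 2 ^ x' := by positivity
        calc (2 : ℝ) ^ (x' + 1) = 2 * 2 ^ x' := by rw [pow_succ]; ring
          _ ≤ 8 * 2 ^ x' := by linarith
          _ ≤ (A : ℝ) ^ (lv x') := h5
          _ = 1 * (A : ℝ) ^ (lv x') := (one_mul _).symm
          _ ≤ 4 * A * (A : ℝ) ^ (lv x') := mul_le_mul_of_nonneg_right (by linarith) h3.le
    · have : nu x = 0 := by
        rcases Nat.eq_zero_or_pos x with h0 | h0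
        · rw [h0, nu3]
        · obtain ⟨x', rfl⟩ : ∃ x', x = x' + 1 := ⟨x - 1, by omega⟩
          exact nu2 x' (by omega)
      rw [this, zero_mul]
      positivity
  · -- the sum
    intro ε hε
    have h8 : (0 : ℝ) < 8 * Cg * A ^ 2 := by positivity
    obtain ⟨C1, hC1⟩ := H.wsum (ε / (8 * Cg * A ^ 2)) (by positivity)
    refine ⟨ε * Real.log (22 + i1) + 8 * Cg * A ^ 2 * C1, fun X hX => ?_⟩
    set g : ℕ → ℝ := fun i => w i * Real.log (2 / w i) with hg
    have hg0 : ∀ i, i1 ≤ i → 0 ≤ g i := by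
      intro i hi
      have h1 := H.wpos hi
      have h2 := H.log_pos hi
      rw [hg]
      simp only
      exact mul_nonneg h1.le (by linarith)
    set I : ℕ := 2 * X + 19 + i1 with hI
    rw [Finset.sum_range_succ', nu3, add_zero]
    have e1 : ∑ x ∈ range X, nu (x + 1) =
        ∑ x ∈ (range X).filter (fun x => x0 ≤ x), (2 : ℝ) ^ (x + 1) / (A : ℝ) ^ (lv x) := by
      rw [Finset.sum_filter]
      refine Finset.sum_congr rfl fun x _ => ?_
      split_ifs with hx
      · exact nu1 x hx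
      · exact nu2 x (by omega)
    have e2 : ∑ x ∈ (range X).filter (fun x => x0 ≤ x), (2 : ℝ) ^ (x + 1) / (A : ℝ) ^ (lv x) =
        ∑ i ∈ Finset.Ico i1 I, ∑ x ∈ ((range X).filter (fun x => x0 ≤ x)).filter (fun x => lv x = i),
          (2 : ℝ) ^ (x + 1) / (A : ℝ) ^ (lv x) := by
      rw [Finset.sum_fiberwise_of_maps_to]
      intro x hx
      rw [Finset.mem_filter, Finset.mem_range] at hx
      rw [Finset.mem_Ico]
      have h1 := (base x hx.2).1
      have h2 : lv x ≤ 2 * x + 18 + i1 := lev_le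
      omega
    have e3 : ∀ i ∈ Finset.Ico i1 I,
        ∑ x ∈ ((range X).filter (fun x => x0 ≤ x)).filter (fun x => lv x = i),
          (2 : ℝ) ^ (x + 1) / (A : ℝ) ^ (lv x) ≤ 8 * Cg * A ^ 2 * g (i + 1) := by
      intro i hi
      rw [Finset.mem_Ico] at hi
      have hAi : (0 : ℝ) < (A : ℝ) ^ i := by positivity
      have f1 : ∑ x ∈ ((range X).filter (fun x => x0 ≤ x)).filter (fun x => lv x = i),
          (2 : ℝ) ^ (x + 1) / (A : ℝ) ^ (lv x) = 2 / (A : ℝ) ^ i *
          ∑ x ∈ ((range X).filter (fun x => x0 ≤ x)).filter (fun x => lv x = i), (2 : ℝ) ^ x := by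
        rw [Finset.mul_sum]
        refine Finset.sum_congr rfl fun x hx => ?_
        rw [(Finset.mem_filter.1 hx).2, pow_succ]
        ring
      have f2 := H.ff_le hC hi.1
      have f3 : 0 ≤ ff T w Cg (i + 1) := by
        have h1 := H.wpos (show i1 ≤ i + 1 by omega)
        have h2 := H.log_pos (show i1 ≤ i + 1 by omega)
        unfold ff
        have : 0 ≤ Real.log (2 / w (i + 1)) := by linarith
        positivity
      have f4 := F17.sum_two_pow_le
        (((range X).filter (fun x => x0 ≤ x)).filter (fun x => lv x = i)) (ff T w Cg (i + 1))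
        (fun x hx => by
          rw [Finset.mem_filter, Finset.mem_filter] at hx
          have h1 := (base x hx.1.2).1
          have h2 := H.lev_next hC h1
          have h3 : lev i1 T w Cg x = i := hx.2
          rw [h3] at h2
          exact h2) f3
      rw [f1]
      calc 2 / (A : ℝ) ^ i * ∑ x ∈ ((range X).filter (fun x => x0 ≤ x)).filter (fun x => lv x = i), (2 : ℝ) ^ x
          ≤ 2 / (A : ℝ) ^ i * (2 * ff T w Cg (i + 1)) := mul_le_mul_of_nonneg_left f4 (by positivity)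
        _ ≤ 2 / (A : ℝ) ^ i * (2 * (2 * Cg * A ^ 2 * (w (i + 1) * Real.log (2 / w (i + 1))) * A ^ i)) := by
            apply mul_le_mul_of_nonneg_left _ (by positivity)
            linarith
        _ = 8 * Cg * A ^ 2 * g (i + 1) := by
            rw [hg]
            field_simp
            ring
    have e4 : ∑ i ∈ Finset.Ico i1 I, g (i + 1) ≤ ∑ i ∈ Finset.Ico i1 (I + 1), g i := by
      rw [Finset.sum_Ico_add' g i1 I 1]
      apply Finset.sum_le_sum_of_subset_of_nonneg
      · intro i hi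
        rw [Finset.mem_Ico] at hi ⊢
        omega
      · intro i hi _
        rw [Finset.mem_Ico] at hi
        exact hg0 i hi.1
    have e5 := hC1 (I + 1) (by omega)
    have e6 : Real.log ((I + 1 : ℕ) : ℝ) ≤ Real.log X + Real.log (22 + i1) := by
      have hX' : (1 : ℝ) ≤ X := by exact_mod_cast hX
      have hi1 : (0 : ℝ) ≤ i1 := Nat.cast_nonneg _
      rw [← Real.log_mul (by positivity) (by positivity)]
      apply Real.log_le_log
      · positivity
      · rw [hI]
        push_cast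
        nlinarith
    rw [e1, e2]
    calc _ ≤ ∑ i ∈ Finset.Ico i1 I, 8 * Cg * A ^ 2 * g (i + 1) := Finset.sum_le_sum e3
      _ = 8 * Cg * A ^ 2 * ∑ i ∈ Finset.Ico i1 I, g (i + 1) := by rw [Finset.mul_sum]
      _ ≤ 8 * Cg * A ^ 2 * (ε / (8 * Cg * A ^ 2) * Real.log ((I + 1 : ℕ) : ℝ) + C1) :=
          mul_le_mul_of_nonneg_left (e4.trans e5) h8.le
      _ = ε * Real.log ((I + 1 : ℕ) : ℝ) + 8 * Cg * A ^ 2 * C1 := by
          field_simp
      _ ≤ ε * (Real.log X + Real.log (22 + i1)) + 8 * Cg * A ^ 2 * C1 := by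
          have := mul_le_mul_of_nonneg_left e6 hε.le
          linarith
      _ = _ := by ring
  · -- the facts
    intro x hx
    obtain ⟨a1, a2, a3⟩ := base x hx
    have hTge := H.Tge _ a1
    have hTge' : ((A : ℝ)) ^ (lv x) ≤ T (lv x) := by exact_mod_cast hTge
    have b1 := base2 x hx
    refine ⟨a1, a2, b1.trans hTge, ?_, ?_, ?_⟩
    · rw [nu1 x hx]
      exact div_le_div_of_nonneg_left (by positivity) (by positivity) hTge'
    · have h1 : T (lv x) ≤ 2 ^ (Nat.clog 2 (T (lv x))) := Nat.le_pow_clog (by norm_num) _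
      refine h1.trans (Nat.pow_le_pow_right (by norm_num) ?_)
      have hlx : l (x + 1) = Nat.clog 2 (T (lv x)) - (x + 1) := rfl
      rw [hlx]
      omega
    · have h1 : 18 ≤ lv x := by
        have h2 : A ^ 18 < A ^ (lv x) := by
          calc A ^ 18 ≤ x := le_trans (le_max_right _ _) hx
            _ < 2 ^ x := Nat.lt_two_pow_self
            _ ≤ 8 * 2 ^ x := by omega
            _ ≤ _ := b1
        exact ((Nat.pow_lt_pow_iff_right (by omega)).1 h2).le
      have h3 := big_nat (x := 0) (i := lv x) (by omega)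
      rw [pow_zero, one_mul] at h3
      have h4 : (((lv x : ℕ) : ℝ) + 1) ^ 2 ≤ 2 ^ (lv x) := by exact_mod_cast h3.le
      have h5 : (2 : ℝ) ^ (lv x) ≤ T (lv x) :=
        le_trans (pow_le_pow_left₀ (by norm_num) hA2' _) hTge'
      have h6 := H.wge _ a1
      have h7 : (0 : ℝ) < (((lv x : ℕ) : ℝ) + 1) ^ 2 := by positivity
      calc (1 : ℝ) = 1 / (((lv x : ℕ) : ℝ) + 1) ^ 2 * (((lv x : ℕ) : ℝ) + 1) ^ 2 := by
            field_simp
        _ ≤ w (lv x) * T (lv x) :=
            mul_le_mul h6 (h4.trans h5) h7.le (H.wpos a1).le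

end Pool.Agent.W_7d29a1_f16
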