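import Mathlib

/-!
# THEOREM F (MP_7d29a1_pr), section 9: the choice of the level of the tubes (pure)

`f i = Cg log (2 / w i) w i T i` is the width of the family of tubes of level `i`; for a scale `x` we take the
largest `i` with `f i ≤ 2 ^ x`.
-/

namespace Pool.Agent.W_7d29a1_f16

open Filter Topology Finset

/-- the data of the tubes which are used here -/
structure Tb (A i1 : ℕ) (T : ℕ → ℕ) (w : ℕ → ℝ) : Prop where
  A2 : 2 ≤ A
  Tge : ∀ i ≥ i1, A ^ i ≤ T i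
  Tle : ∀ i ≥ i1, T i ≤ 2 * A ^ (i + 1)
  wge : ∀ i ≥ i1, 1 / ((i : ℝ) + 1) ^ 2 ≤ w i
  wle : ∀ i ≥ i1, w i ≤ 1
  wlim : Tendsto w atTop (𝓝 0)
  wsum : ∀ ε : ℝ, 0 < ε → ∃ Cε : ℝ, ∀ I : ℕ, 1 ≤ I →
    ∑ i ∈ Finset.Ico i1 I, w i * Real.log (2 / w i) ≤ ε * Real.log I + Cε

variable {A i1 : ℕ} {T : ℕ → ℕ} {w : ℕ → ℝ}

/-- the width of the family of tubes of level `i` -/
noncomputable def ff (T : ℕ → ℕ) (w : ℕ → ℝ) (Cg : ℝ) (i : ℕ) : ℝ := Cg * Real.log (2 / w i) * w i * T i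

lemma Tb.wpos (H : Tb A i1 T w) {i : ℕ} (hi : i1 ≤ i) : 0 < w i :=
  lt_of_lt_of_le (by positivity) (H.wge i hi)

lemma Tb.log_pos (H : Tb A i1 T w) {i : ℕ} (hi : i1 ≤ i) : 1 / 2 ≤ Real.log (2 / w i) := by
  have h1 := H.wpos hi
  have h2 := H.wle i hi
  have h3 : (2 : ℝ) ≤ 2 / w i := by
    rw [le_div_iff₀ h1]
    linarith
  have h4 := Real.log_le_log (by norm_num) h3
  linarith [Real.log_two_gt_d9]

/-- `(i + 1)^2 ≤ 2 ^ (i / 2)` -/
lemma sq_le_pow {m : ℕ} (hm : 9 ≤ m) : (2 * m + 2) ^ 2 ≤ 2 ^ m := by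
  induction m, hm using Nat.le_induction with
  | base => norm_num
  | succ m hm ih =>
    have h1 : (2 * (m + 1) + 2) ^ 2 ≤ 2 * (2 * m + 2) ^ 2 := by nlinarith
    calc (2 * (m + 1) + 2) ^ 2 ≤ 2 * (2 * m + 2) ^ 2 := h1
      _ ≤ 2 * 2 ^ m := Nat.mul_le_mul_left 2 ih
      _ = 2 ^ (m + 1) := by rw [pow_succ, mul_comm]

lemma big_nat {x i : ℕ} (h : 2 * x + 18 ≤ i) : 2 ^ x * (i + 1) ^ 2 < 2 ^ i := by
  have h1 : (i + 1) ^ 2 ≤ 2 ^ (i / 2) := by
    refine le_trans ?_ (sq_le_pow (m := i / 2) (by omega))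
    exact Nat.pow_le_pow_left (by omega) 2
  calc 2 ^ x * (i + 1) ^ 2 ≤ 2 ^ x * 2 ^ (i / 2) := Nat.mul_le_mul_left _ h1
    _ = 2 ^ (x + i / 2) := by rw [pow_add]
    _ < 2 ^ i := Nat.pow_lt_pow_right (by norm_num) (by omega)

/-- for `i ≥ 2 x + 18` the family of tubes is too wide -/
lemma Tb.ff_big (H : Tb A i1 T w) {Cg : ℝ} (hC : 2 ≤ Cg) {x i : ℕ} (hi : i1 ≤ i) (h : 2 * x + 18 ≤ i) :
    (2 : ℝ) ^ x < ff T w Cg i := by
  have h1 := H.wge i hi
  have h2 := H.log_pos hi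
  have h3 := H.Tge i hi
  have h4 := H.wpos hi
  have h5 : (2 : ℝ) ^ i ≤ T i := by
    have : 2 ^ i ≤ T i := (Nat.pow_le_pow_left H.A2 i).trans h3
    exact_mod_cast this
  have h6 : (2 : ℝ) ^ x * ((i : ℝ) + 1) ^ 2 < 2 ^ i := by exact_mod_cast big_nat h
  have h7 : (2 : ℝ) ^ x < 1 / ((i : ℝ) + 1) ^ 2 * 2 ^ i := by
    rw [one_div, ← div_eq_inv_mul, lt_div_iff₀ (by positivity)]
    exact h6
  unfold ff
  have h8 : 1 ≤ Cg * Real.log (2 / w i) := by nlinarith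
  calc (2 : ℝ) ^ x < 1 / ((i : ℝ) + 1) ^ 2 * 2 ^ i := h7
    _ ≤ w i * T i := mul_le_mul h1 h5 (by positivity) h4.le
    _ = 1 * (w i * T i) := (one_mul _).symm
    _ ≤ Cg * Real.log (2 / w i) * (w i * T i) :=
        mul_le_mul_of_nonneg_right h8 (mul_nonneg h4.le (Nat.cast_nonneg _))
    _ = _ := by ring

open Classical in
/-- the level for the scale `x` -/
noncomputable def lev (i1 : ℕ) (T : ℕ → ℕ) (w : ℕ → ℝ) (Cg : ℝ) (x : ℕ) : ℕ :=
  Nat.findGreatest (fun i => i1 ≤ i ∧ ff T w Cg i ≤ 2 ^ x) (2 * x + 18 + i1)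

lemma lev_spec {Cg : ℝ} {x i : ℕ} (hi : i ≤ 2 * x + 18 + i1) (h1 : i1 ≤ i) (h2 : ff T w Cg i ≤ 2 ^ x) :
    i1 ≤ lev i1 T w Cg x ∧ ff T w Cg (lev i1 T w Cg x) ≤ 2 ^ x ∧ i ≤ lev i1 T w Cg x := by
  classical
  have h3 := Nat.findGreatest_spec (P := fun i => i1 ≤ i ∧ ff T w Cg i ≤ 2 ^ x) hi ⟨h1, h2⟩
  exact ⟨h3.1, h3.2, Nat.le_findGreatest hi ⟨h1, h2⟩⟩

/-- the next level is too wide -/
lemma Tb.lev_next (H : Tb A i1 T w) {Cg : ℝ} (hC : 2 ≤ Cg) {x : ℕ} (h1 : i1 ≤ lev i1 T w Cg x) :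
    (2 : ℝ) ^ x < ff T w Cg (lev i1 T w Cg x + 1) := by
  classical
  by_contra hcon
  rw [not_lt] at hcon
  rcases Nat.lt_or_ge (lev i1 T w Cg x) (2 * x + 18 + i1) with h | h
  · have := Nat.le_findGreatest (P := fun i => i1 ≤ i ∧ ff T w Cg i ≤ 2 ^ x) (n := 2 * x + 18 + i1)
      (m := lev i1 T w Cg x + 1) (by omega) ⟨by omega, hcon⟩
    have h2 : lev i1 T w Cg x + 1 ≤ lev i1 T w Cg x := this
    omega
  · exact absurd (H.ff_big hC (x := x) (i := lev i1 T w Cg x + 1) (by omega) (by omega)) (not_lt.2 hcon)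

lemma lev_le {Cg : ℝ} {x : ℕ} : lev i1 T w Cg x ≤ 2 * x + 18 + i1 := by
  classical
  exact Nat.findGreatest_le _

/-- `w log (2 / w) → 0` -/
lemma Tb.wlog_lim (H : Tb A i1 T w) : Tendsto (fun i => w i * Real.log (2 / w i)) atTop (𝓝 0) := by
  have h1 : Tendsto (fun t : ℝ => t * Real.log (2 / t)) (𝓝[>] 0) (𝓝 0) := by
    have h2 : Tendsto (fun t : ℝ => Real.log t * t) (𝓝[>] 0) (𝓝 0) := by
      simpa only [Real.rpow_one] using tendsto_log_mul_rpow_nhdsGT_zero zero_lt_one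
    have h3 : Tendsto (fun t : ℝ => t * Real.log 2) (𝓝[>] 0) (𝓝 0) := by
      have : Tendsto (fun t : ℝ => t * Real.log 2) (𝓝 0) (𝓝 (0 * Real.log 2)) :=
        tendsto_id.mul_const _
      rw [zero_mul] at this
      exact this.mono_left nhdsWithin_le_nhds
    have h4 := h3.sub h2
    rw [sub_zero] at h4
    refine h4.congr' ?_
    filter_upwards [self_mem_nhdsWithin] with t ht
    have ht' : (0 : ℝ) < t := ht
    rw [Real.log_div (by norm_num) ht'.ne']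
    ring
  refine h1.comp ?_
  rw [tendsto_nhdsWithin_iff]
  refine ⟨H.wlim, ?_⟩
  filter_upwards [eventually_ge_atTop i1] with i hi
  exact H.wpos hi

/-- for every `K` and all large `x` the level satisfies `K 2 ^ x ≤ A ^ lev x` -/
theorem Tb.lev_large (H : Tb A i1 T w) (Cg : ℝ) (hC : 2 ≤ Cg) (K : ℕ) :
    ∀ᶠ x : ℕ in atTop, i1 ≤ lev i1 T w Cg x ∧ ff T w Cg (lev i1 T w Cg x) ≤ 2 ^ x ∧
      (K : ℝ) * 2 ^ x ≤ (A : ℝ) ^ (lev i1 T w Cg x) := by
  have hA1 : (1 : ℝ) < A := by exact_mod_cast (show 1 < A by have := H.A2; omega)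
  have hA0 : (0 : ℝ) < A := by linarith
  set K' : ℕ := K + 1 with hK'
  -- the first level with `A ^ i ≥ K' 2 ^ x`
  set i' : ℕ → ℕ := fun x => Nat.clog A (K' * 2 ^ x) with hi'
  have hi1 : ∀ x, K' * 2 ^ x ≤ A ^ (i' x) := fun x => Nat.le_pow_clog (by have := H.A2; omega) _
  have hi2 : ∀ x, A ^ (i' x) ≤ A * (K' * 2 ^ x) := by
    intro x
    have h2 : 1 < K' * 2 ^ x ∨ K' * 2 ^ x ≤ 1 := by omega
    rcases h2 with h2 | h2
    · have h3 := Nat.pow_pred_clog_lt_self (b := A) (by have := H.A2; omega) h2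
      have h4 : 0 < Nat.clog A (K' * 2 ^ x) := Nat.clog_pos (by have := H.A2; omega) h2
      have h5 : A ^ (i' x) = A * A ^ (Nat.clog A (K' * 2 ^ x)).pred := by
        rw [hi']
        simp only
        conv_lhs => rw [← Nat.succ_pred_eq_of_pos h4]
        rw [pow_succ, mul_comm]
      rw [h5]
      exact Nat.mul_le_mul_left A h3.le
    · have h3 : i' x = 0 := by
        rw [hi']
        simp only
        exact Nat.clog_of_right_le_one h2 A
      rw [h3, pow_zero]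
      have h4 : 0 < K' * 2 ^ x := by positivity
      have := H.A2
      nlinarith
  have hlim : Tendsto i' atTop atTop := by
    rw [tendsto_atTop]
    intro b
    filter_upwards [eventually_ge_atTop (A ^ b)] with x hx
    have h1 : A ^ b < K' * 2 ^ x := by
      calc A ^ b ≤ x := hx
        _ < 2 ^ x := Nat.lt_two_pow_self
        _ = 1 * 2 ^ x := (one_mul _).symm
        _ ≤ K' * 2 ^ x := Nat.mul_le_mul_right _ (by omega)
    have h2 := h1.trans_le (hi1 x)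
    exact ((Nat.pow_lt_pow_iff_right (by have := H.A2; omega)).1 h2).le
  have hw : ∀ᶠ i in atTop, w i * Real.log (2 / w i) ≤ 1 / (2 * Cg * A ^ 2 * K') := by
    have h1 : (0 : ℝ) < 1 / (2 * Cg * A ^ 2 * K') := by
      have : (0 : ℝ) < K' := by positivity
      positivity
    filter_upwards [H.wlog_lim.eventually (gt_mem_nhds h1)] with i hi
    exact hi.le
  filter_upwards [hlim.eventually hw, hlim.eventually_ge_atTop i1] with x hx1 hx2
  have hT := H.Tle _ hx2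
  have hlog := H.log_pos hx2
  have hwp := H.wpos hx2
  have hff : ff T w Cg (i' x) ≤ 2 ^ x := by
    have h1 : (T (i' x) : ℝ) ≤ 2 * A ^ 2 * K' * 2 ^ x := by
      have h2 : T (i' x) ≤ 2 * (A * (A * (K' * 2 ^ x))) := by
        calc T (i' x) ≤ 2 * A ^ (i' x + 1) := hT
          _ = 2 * (A * A ^ (i' x)) := by rw [pow_succ, mul_comm A]
          _ ≤ _ := Nat.mul_le_mul_left 2 (Nat.mul_le_mul_left A (hi2 x))
      have h3 : ((T (i' x) : ℕ) : ℝ) ≤ ((2 * (A * (A * (K' * 2 ^ x))) : ℕ) : ℝ) := by exact_mod_cast h2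
      push_cast at h3 ⊢
      nlinarith
    have h4 : 0 ≤ Cg * (w (i' x) * Real.log (2 / w (i' x))) := by positivity
    have h5 : (0 : ℝ) < K' := by positivity
    calc ff T w Cg (i' x) = Cg * (w (i' x) * Real.log (2 / w (i' x))) * T (i' x) := by
          unfold ff
          ring
      _ ≤ Cg * (w (i' x) * Real.log (2 / w (i' x))) * (2 * A ^ 2 * K' * 2 ^ x) :=
          mul_le_mul_of_nonneg_left h1 h4
      _ ≤ Cg * (1 / (2 * Cg * A ^ 2 * K')) * (2 * A ^ 2 * K' * 2 ^ x) := by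
          apply mul_le_mul_of_nonneg_right _ (by positivity)
          exact mul_le_mul_of_nonneg_left hx1 (by linarith)
      _ = 2 ^ x := by
          field_simp
  have hile : i' x ≤ 2 * x + 18 + i1 := by
    by_contra hcon
    exact absurd (H.ff_big hC (x := x) (i := i' x) hx2 (by omega)) (not_lt.2 hff)
  obtain ⟨a1, a2, a3⟩ := lev_spec hile hx2 hff
  refine ⟨a1, a2, ?_⟩
  have h6 : ((K' * 2 ^ x : ℕ) : ℝ) ≤ (A : ℝ) ^ (i' x) := by exact_mod_cast hi1 x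
  have h7 : (A : ℝ) ^ (i' x) ≤ (A : ℝ) ^ (lev i1 T w Cg x) := pow_le_pow_right₀ hA1.le a3
  have h8 : (K : ℝ) * 2 ^ x ≤ ((K' * 2 ^ x : ℕ) : ℝ) := by
    rw [hK']
    push_cast
    nlinarith [pow_pos (show (0 : ℝ) < 2 by norm_num) x]
  linarith

end Pool.Agent.W_7d29a1_f16
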